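import Mathlib
import Pool.Agent.Helper287.MB.Fin

set_option autoImplicit false
open MeasureTheory

namespace Pool.Agent.Results.MP_a59212_an.ClassificationAll

/-- the closed unit ball of `ℂⁿ` -/
abbrev CBall (n : ℕ) : Type := {z : Fin n → ℂ // ∑ i, ‖z i‖ ^ 2 ≤ 1}

/-- the continuous complex functions on the closed unit ball, with the sup norm -/
abbrev CB (n : ℕ) : Type := C({z : Fin n → ℂ // ∑ i, ‖z i‖ ^ 2 ≤ 1}, ℂ)

/-- the open unit ball of `ℂⁿ` -/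
abbrev OBall (n : ℕ) : Set (Fin n → ℂ) := {z : Fin n → ℂ | ∑ i, ‖z i‖ ^ 2 < 1}

/-- `φ` is a biholomorphic map of the open unit ball onto itself -/
def IsAut (n : ℕ) (φ : (Fin n → ℂ) → (Fin n → ℂ)) : Prop :=
  DifferentiableOn ℂ φ (OBall n) ∧
  (∀ z : Fin n → ℂ, ∑ i, ‖z i‖ ^ 2 < 1 → ∑ i, ‖φ z i‖ ^ 2 < 1) ∧
  ∃ ψ : (Fin n → ℂ) → (Fin n → ℂ),
    DifferentiableOn ℂ ψ (OBall n) ∧
    ∀ z : Fin n → ℂ, ∑ i, ‖z i‖ ^ 2 < 1 →
      ∑ i, ‖ψ z i‖ ^ 2 < 1 ∧ φ (ψ z) = z ∧ ψ (φ z) = z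

/-- `Y` is invariant under composition with the automorphisms of the ball (extended continuously
to the closed ball) -/
def MInvariant (n : ℕ) (Y : Submodule ℂ (CB n)) : Prop :=
  ∀ φ : (Fin n → ℂ) → (Fin n → ℂ),
    ContinuousOn φ {z : Fin n → ℂ | ∑ i, ‖z i‖ ^ 2 ≤ 1} →
    (∀ z : Fin n → ℂ, ∑ i, ‖z i‖ ^ 2 ≤ 1 → ∑ i, ‖φ z i‖ ^ 2 ≤ 1) →
    IsAut n φ →
    ∀ f ∈ Y, ∀ g : CB n,
      (∀ x : CBall n, ∀ hx : ∑ i, ‖φ x.1 i‖ ^ 2 ≤ 1, g x = f ⟨φ x.1, hx⟩) → g ∈ Y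

/-- `h` vanishes on the unit sphere -/
def VanishesOnSphere (n : ℕ) (h : CB n) : Prop :=
  ∀ x : CBall n, ∑ i, ‖x.1 i‖ ^ 2 = 1 → h x = 0

/-- `h = 0` -/
def IsZero (n : ℕ) (h : CB n) : Prop := h = 0

/-- `h` is constant -/
def IsConst (n : ℕ) (h : CB n) : Prop := ∃ c : ℂ, ∀ x : CBall n, h x = c

/-- `h` is holomorphic in the open ball (the ball algebra) -/
def IsHol (n : ℕ) (h : CB n) : Prop :=
  ∃ F : (Fin n → ℂ) → ℂ, DifferentiableOn ℂ F (OBall n) ∧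
    ∀ x : CBall n, ∑ i, ‖x.1 i‖ ^ 2 < 1 → h x = F x.1

/-- `h` is antiholomorphic in the open ball (the conjugate of a member of the ball algebra) -/
def IsAntiHol (n : ℕ) (h : CB n) : Prop :=
  ∃ F : (Fin n → ℂ) → ℂ, DifferentiableOn ℂ F (OBall n) ∧
    ∀ x : CBall n, ∑ i, ‖x.1 i‖ ^ 2 < 1 → h x = starRingEnd ℂ (F x.1)

/-- `h` is pluriharmonic in the open ball: `h = F + conj G` with `F`, `G` holomorphic -/
def IsPlh (n : ℕ) (h : CB n) : Prop :=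
  ∃ F G : (Fin n → ℂ) → ℂ, DifferentiableOn ℂ F (OBall n) ∧ DifferentiableOn ℂ G (OBall n) ∧
    ∀ x : CBall n, ∑ i, ‖x.1 i‖ ^ 2 < 1 → h x = F x.1 + starRingEnd ℂ (G x.1)

/-- `h` is M-harmonic in the open ball, i.e. (Rudin) it is the invariant Poisson integral of its
boundary values: for every automorphism `ψ` the mean of `h ∘ ψ` over every ball `|z| < r < 1`
equals `h (ψ 0)`. -/
def IsMHarmonic (n : ℕ) (h : CB n) : Prop :=
  ∀ F : (Fin n → ℂ) → ℂ, (∀ x : CBall n, F x.1 = h x) →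
    ∀ ψ : (Fin n → ℂ) → (Fin n → ℂ), IsAut n ψ →
      ∀ r : ℝ, 0 < r → r < 1 →
        ∫ z in {z : Fin n → ℂ | ∑ i, ‖z i‖ ^ 2 < r ^ 2}, F (ψ z) =
          (volume {z : Fin n → ℂ | ∑ i, ‖z i‖ ^ 2 < r ^ 2}).toReal • F (ψ 0)

/-- Every closed automorphism-invariant subspace `Y` of `C` of the closed ball is the sum of
`Y ∩ C₀` and one of the six spaces of Poisson integrals; no further assumption on `Y ∩ C₀`. -/
theorem result :
    ∀ n : ℕ, 0 < n → ∀ Y : Submodule ℂ (CB n), IsClosed (Y : Set (CB n)) → MInvariant n Y →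
      ∃ W : CB n → Prop,
        (W = IsZero n ∨ W = IsConst n ∨ W = IsHol n ∨ W = IsAntiHol n ∨ W = IsPlh n ∨
          W = IsMHarmonic n) ∧
        ∀ f : CB n, f ∈ Y ↔
          ∃ g h : CB n, g ∈ Y ∧ VanishesOnSphere n g ∧ W h ∧ f = g + h := by
  intro n hn Y hY hinv
  have : Nonempty (Fin n) := ⟨⟨0, hn⟩⟩
  have hinv' : Pool.Agent.Helper287.MB.InvHyp n Y := by
    intro φ h1 h2 h3 h4 h5
    exact hinv φ h1 h2 ⟨h3, h4, h5⟩
  obtain ⟨P, hP, hPY, hdec⟩ := Pool.Agent.Helper287.MB.final_aux n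
    (PiLp.continuousLinearEquiv 2 ℂ (fun _ : Fin n => ℂ) : EuclideanSpace ℂ (Fin n) ≃L[ℂ] (Fin n → ℂ))
    (fun z => (EuclideanSpace.norm_sq_eq z).symm) Y hY hinv'
  refine ⟨P, ?_, ?_⟩
  · rcases hP with h | h | h | h | h | h
    · exact Or.inl h
    · exact Or.inr (Or.inl h)
    · exact Or.inr (Or.inr (Or.inl h))
    · exact Or.inr (Or.inr (Or.inr (Or.inl h)))
    · exact Or.inr (Or.inr (Or.inr (Or.inr (Or.inl h))))
    · refine Or.inr (Or.inr (Or.inr (Or.inr (Or.inr ?_))))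
      rw [h]
      funext h'
      apply propext
      constructor
      · intro H F hF ψ hψ
        exact H F hF ψ hψ.1 hψ.2.1 hψ.2.2
      · intro H F hF ψ h1 h2 h3
        exact H F hF ψ ⟨h1, h2, h3⟩
  · intro f
    constructor
    · intro hf
      obtain ⟨g, h, hg, hg0, hh, hfe⟩ := hdec f hf
      exact ⟨g, h, hg, hg0, hh, hfe⟩
    · rintro ⟨g, h, hg, _, hh, rfl⟩
      exact Y.add_mem hg (hPY h hh)

end Pool.Agent.Results.MP_a59212_an.ClassificationAll
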